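import Mathlib

namespace Pool.Agent.Results.MP_5790d7_co.Counter

def Emb (A B : Type) [LE A] [LE B] : Prop := Nonempty (A ↪o B)

abbrev T := WithBot ℕᵒᵈ

theorem no_emb (C : Set T) (hC : ⊥ ∉ C) : ¬ Emb T C := by
  rintro ⟨f⟩
  have h1 : ∀ x : C, ∃ n : ℕ, (x : T) = ((OrderDual.toDual n : ℕᵒᵈ) : T) := by
    rintro ⟨x, hx⟩
    induction x using WithBot.recBotCoe with
    | bot => exact absurd hx hC
    | coe a => exact ⟨OrderDual.ofDual a, rfl⟩
  choose g hg using h1
  have h2 : StrictMono (fun n : ℕ => g (f ((OrderDual.toDual n : ℕᵒᵈ) : T))) := by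
    intro a b hab
    have : f ((OrderDual.toDual b : ℕᵒᵈ) : T) < f ((OrderDual.toDual a : ℕᵒᵈ) : T) :=
      f.strictMono (by simpa using hab)
    have h3 : ((f ((OrderDual.toDual b : ℕᵒᵈ) : T) : C) : T) <
        (f ((OrderDual.toDual a : ℕᵒᵈ) : T) : C) := this
    rw [hg, hg] at h3
    simpa using h3
  have h4 : f ⊥ < f ((OrderDual.toDual (g (f ⊥)) : ℕᵒᵈ) : T) := f.strictMono (by simp)
  have h5 : ((f ⊥ : C) : T) < (f ((OrderDual.toDual (g (f ⊥)) : ℕᵒᵈ) : T) : C) := h4
  rw [hg, hg] at h5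
  have h6 : g (f ⊥) ≤ _ := h2.le_apply
  simp at h5
  omega

theorem no_fin (B : Type) [LE B] [Finite B] : ¬ Emb T B := by
  rintro ⟨f⟩
  haveI : Infinite T := inferInstanceAs (Infinite (Option ℕ))
  exact not_injective_infinite_finite f f.injective

theorem result : ∃ (A : Type) (_ : LinearOrder A), Countable A ∧
    (∀ X : Set A, IsLowerSet X → (Emb X A ∧ ¬ Emb A X) →
      (Emb (X ⊕ₗ X) A ∧ ¬ Emb A (X ⊕ₗ X))) ∧
    ∃ B : Set A, IsLowerSet B ∧ ¬ Emb A B ∧ ¬ Emb A (Bᶜ : Set A) := by
  refine ⟨T, inferInstance, inferInstanceAs (Countable (Option ℕ)), ?_, {⊥}, ?_, no_fin _,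
    no_emb _ (by simp)⟩
  · intro X hX h
    have hsub : ∀ x ∈ X, x = ⊥ := by
      intro x hx
      induction x using WithBot.recBotCoe with
      | bot => rfl
      | coe a =>
        exfalso
        apply h.2
        have hm : StrictMono (fun n : ℕᵒᵈ => OrderDual.toDual (OrderDual.ofDual n + OrderDual.ofDual a)) := by
          intro m n hmn
          simpa using hmn
        refine ⟨OrderEmbedding.ofStrictMono (fun y => ⟨WithBot.map _ y, hX ?_ hx⟩)
          (fun y z hyz => (WithBot.strictMono_map_iff.2 hm) hyz)⟩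
        induction y using WithBot.recBotCoe with
        | bot => simp
        | coe b =>
          rw [WithBot.map_coe, WithBot.coe_le_coe]
          exact Nat.le_add_left _ _
    have hfin : Finite X := (Set.finite_singleton ⊥).subset hsub
    haveI : Finite (X ⊕ₗ X) := inferInstanceAs (Finite (X ⊕ X))
    refine ⟨⟨OrderEmbedding.ofStrictMono (fun y => Sum.elim (fun _ => ⊥) (fun _ => ⊤) (ofLex y))
      ?_⟩, no_fin _⟩
    rintro (a | a) (b | b) hab
    · have : a < b := Sum.Lex.inl_lt_inl_iff.1 hab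
      exact absurd (Subtype.ext ((hsub _ a.2).trans (hsub _ b.2).symm)) this.ne
    · exact bot_lt_top
    · exact absurd hab Sum.Lex.not_inr_lt_inl
    · have : a < b := Sum.Lex.inr_lt_inr_iff.1 hab
      exact absurd (Subtype.ext ((hsub _ a.2).trans (hsub _ b.2).symm)) this.ne
  · intro a b hab ha
    rw [Set.mem_singleton_iff.1 ha] at hab
    exact le_bot_iff.1 hab

end Pool.Agent.Results.MP_5790d7_co.Counter
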